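import Mathlib
import Pool.Agent.X58.IV.Forms
import Pool.Agent.X58.IV.Up

set_option autoImplicit false
set_option maxHeartbeats 4000000

/-!
# MP_629a14_nt: Goldbach representations in narrow arithmetic progressions

Simultaneous representations `e = n + (e - n)`, `e ∈ E`, of several integers with the same `n`, where `n`
lies in a short interval. The sifted classes modulo `p` are `0` and the residues of the `e ∈ E`.
-/

namespace Pool.Agent.Results.MP_629a14_nt.NarrowRepresentations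

open Finset
open Pool.Agent.X58.IV
open Pool.Agent.Y843.HS (Pr VV Sv)

/-- all prime factors of `v` exceed `z` -/
def Rough (z : ℝ) (v : ℕ) : Prop := ∀ p : ℕ, p.Prime → p ∣ v → z < p

/-- `U` contains `m` terms of an arithmetic progression with common difference in `[1, D]` -/
def HasNarrowAP (m : ℕ) (D : ℝ) (U : Finset ℕ) : Prop :=
  ∃ a d : ℕ, 1 ≤ d ∧ (d : ℝ) ≤ D ∧ ∀ j < m, a + j * d ∈ U

open Classical in
/-- the `n` of `(A, A + X]` such that `n` and all the `e - n`, `e ∈ E`, have all their prime factors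
above `X ^ κ` -/
noncomputable def RR (E : Finset ℕ) (κ : ℝ) (A X : ℕ) : Finset ℕ :=
  (Ioc A (A + X)).filter (fun n => Rough ((X : ℝ) ^ κ) n ∧ ∀ e ∈ E, Rough ((X : ℝ) ^ κ) (e - n))

/-- the residues of `0` and of the elements of `E` modulo `p` -/
def res (E : Finset ℕ) (p : ℕ) : Finset ℕ := (insert 0 E).image (fun e => e % p)

/-- the number of these residues -/
def om (E : Finset ℕ) (p : ℕ) : ℕ := (res E p).card

/-- `0` and the elements of `E` do not cover all the classes modulo a prime -/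
def Admissible (E : Finset ℕ) : Prop := ∀ p : ℕ, p.Prime → om E p < p

/-- the product of the local densities `1 - om E p / p` over the primes `p ≤ X` -/
noncomputable def Vol (E : Finset ℕ) (X : ℕ) : ℝ :=
  ∏ p ∈ (Ioc 0 X).filter Nat.Prime, (1 - (om E p : ℝ) / p)

lemma vol_eq (E : Finset ℕ) (X : ℕ) : Vol E X = VV (res E) 0 X := rfl

lemma adm_even (N : ℕ) (hN : Even N) : Admissible {N} := by
  intro p hp
  unfold om res
  rcases hp.eq_two_or_odd' with h2 | hodd
  · subst h2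
    have h : (insert 0 ({N} : Finset ℕ)).image (fun e => e % 2) ⊆ {0} := by
      intro x hx
      obtain ⟨e, he, rfl⟩ := mem_image.1 hx
      rw [mem_insert, mem_singleton] at he
      rw [mem_singleton]
      rcases he with rfl | rfl
      · rfl
      · exact Nat.even_iff.1 hN
    have := card_le_card h
    rw [card_singleton] at this
    omega
  · have h3 : 3 ≤ p := by
      have := hp.two_le
      rcases hodd with ⟨k, hk⟩
      omega
    have h4 : ((insert 0 ({N} : Finset ℕ)).image (fun e => e % p)).card ≤ 2 :=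
      card_image_le.trans (card_insert_le _ _)
    omega

lemma adm_res (E : Finset ℕ) (M : ℕ) (hE : E.card ≤ M) (h : Admissible E) : Adm (M + 1) (res E) := by
  intro p hp
  refine ⟨?_, h p hp, fun c hc => ?_⟩
  · unfold res
    exact card_image_le.trans ((card_insert_le _ _).trans (by omega))
  · obtain ⟨e, _, rfl⟩ := mem_image.1 hc
    exact Nat.mod_lt _ hp.pos

lemma mem_res (E : Finset ℕ) (p n : ℕ) (hn : ∀ e ∈ E, n < e) :
    n % p ∈ res E p ↔ p ∣ n ∨ ∃ e ∈ E, p ∣ e - n := by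
  unfold res
  simp only [mem_image, mem_insert]
  constructor
  · rintro ⟨e, rfl | he, h⟩
    · left
      rw [Nat.zero_mod] at h
      exact Nat.dvd_of_mod_eq_zero h.symm
    · right
      exact ⟨e, he, (Nat.modEq_iff_dvd' (hn e he).le).1 h.symm⟩
  · rintro (h | ⟨e, he, h⟩)
    · exact ⟨0, Or.inl rfl, by rw [Nat.zero_mod, Nat.mod_eq_zero_of_dvd h]⟩
    · exact ⟨e, Or.inr he, ((Nat.modEq_iff_dvd' (hn e he).le).2 h).symm⟩

lemma sift_eq' (E : Finset ℕ) (κ : ℝ) (A X : ℕ) (hE : ∀ e ∈ E, A + X < e) :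
    Sift (res E) κ A X = RR E κ A X := by
  classical
  unfold Sift RR
  apply filter_congr
  intro n hn
  rw [mem_Ioc] at hn
  have hlt : ∀ e ∈ E, n < e := fun e he => lt_of_le_of_lt hn.2 (hE e he)
  constructor
  · intro h
    refine ⟨fun p hp hd => ?_, fun e he p hp hd => ?_⟩
    · by_contra hcon
      exact h p hp (not_lt.1 hcon) ((mem_res E p n hlt).2 (Or.inl hd))
    · by_contra hcon
      exact h p hp (not_lt.1 hcon) ((mem_res E p n hlt).2 (Or.inr ⟨e, he, hd⟩))
  · rintro ⟨h1, h2⟩ p hp hpX hmem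
    rcases (mem_res E p n hlt).1 hmem with hd | ⟨e, he, hd⟩
    · exact absurd (h1 p hp hd) (not_lt.2 hpX)
    · exact absurd (h2 e he p hp hd) (not_lt.2 hpX)

/-- few prime factors -/
lemma few' (C r X v : ℕ) (κ : ℝ) (hκ : 0 < κ) (hr : (C : ℝ) / κ ≤ r) (hX : 2 ≤ X) (hv : v ≠ 0)
    (hle : v ≤ X ^ C) (h : Rough ((X : ℝ) ^ κ) v) : v.primeFactorsList.length ≤ r := by
  have hXr : (1 : ℝ) < X := by exact_mod_cast (by omega : 1 < X)
  apply few_factors v r ((X : ℝ) ^ κ) (Real.one_lt_rpow hXr hκ) hv _ h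
  have h6 : ((X : ℝ) ^ κ) ^ r = (X : ℝ) ^ (κ * r) := by
    rw [← Real.rpow_natCast, ← Real.rpow_mul (by linarith)]
  rw [h6]
  have h7 : (C : ℝ) ≤ κ * r := by
    rw [div_le_iff₀ hκ] at hr
    linarith
  calc (v : ℝ) ≤ ((X ^ C : ℕ) : ℝ) := by exact_mod_cast hle
    _ = (X : ℝ) ^ (C : ℝ) := by rw [Real.rpow_natCast]; push_cast; ring
    _ ≤ _ := Real.rpow_le_rpow_of_exponent_le hXr.le h7

/-- **Goldbach representations in narrow arithmetic progressions.** -/
theorem result (M C : ℕ) : (∀ N : ℕ, Even N → Admissible {N}) ∧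
    ∃ (κ c c' : ℝ) (r : ℕ), 0 < κ ∧ 0 < c ∧ ∀ (m : ℕ) (ρ : ℝ), 0 < ρ →
    ∃ B X₀ : ℕ, ∀ X A : ℕ, X₀ ≤ X → ∀ E : Finset ℕ, E.Nonempty → E.card ≤ M → Admissible E →
      (∀ e ∈ E, A + X < e ∧ e ≤ X ^ C) →
      -- the number of the `n`: the expected order of magnitude
      c / Real.log X ^ (M + 1) ≤ Vol E X ∧
      c * X * Vol E X ≤ ((RR E κ A X).card : ℝ) ∧ ((RR E κ A X).card : ℝ) ≤ c' * X * Vol E X ∧
      -- they and all the `e - n` are almost primes
      (∀ n ∈ RR E κ A X, n.primeFactorsList.length ≤ r ∧ ∀ e ∈ E, (e - n).primeFactorsList.length ≤ r) ∧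
      -- narrow progressions in dense sets of such `n`
      (∀ U ⊆ RR E κ A X, ρ * X * Vol E X ≤ U.card → HasNarrowAP m (Real.log X ^ B) U) ∧
      -- narrow progressions in dense sets of primes `p` with all the `e - p` prime
      (X ≤ A → (∀ e ∈ E, A + 2 * X < e) → ∀ U ⊆ Ioc A (A + X),
        (∀ p ∈ U, p.Prime ∧ ∀ e ∈ E, (e - p).Prime) → ρ * X * Vol E X ≤ U.card →
        HasNarrowAP m (Real.log X ^ B) U) := by
  classical
  refine ⟨adm_even, ?_⟩
  obtain ⟨κ, c, hκ, hκ1, hc, hmain⟩ := baseZ (M + 1)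
  obtain ⟨c2, hc2, hV⟩ := VV_ge (M + 1)
  obtain ⟨C1, hC1, X1, hup⟩ := upZ (M + 1) κ hκ
  obtain ⟨c3, hc3, X2, hcomp⟩ := VV_comp_pow (M + 1) κ 1 hκ one_pos
  obtain ⟨r, hr⟩ := exists_nat_ge ((C : ℝ) / κ)
  refine ⟨κ, min c c2, C1 / c3, r, hκ, lt_min hc hc2, fun m ρ hρ => ?_⟩
  obtain ⟨B, X₀, hB⟩ := hmain m (ρ / (C1 / c3)) (by positivity)
  refine ⟨B, max (max X₀ X1) (max X2 3), fun X A hX E hEn hEM hEa hE => ?_⟩
  have hX0 : X₀ ≤ X := ((le_max_left _ _).trans (le_max_left _ _)).trans hX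
  have hX1 : X1 ≤ X := ((le_max_right _ _).trans (le_max_left _ _)).trans hX
  have hX2 : X2 ≤ X := ((le_max_left _ _).trans (le_max_right _ _)).trans hX
  have hX3 : 3 ≤ X := ((le_max_right _ _).trans (le_max_right _ _)).trans hX
  have hXr : (1 : ℝ) < X := by exact_mod_cast (by omega : 1 < X)
  have hlog : 0 < Real.log X := Real.log_pos hXr
  have hAdm := adm_res E M hEM hEa
  have hEX : ∀ e ∈ E, A + X < e := fun e he => (hE e he).1
  obtain ⟨_, h2, h3⟩ := hB X A hX0 (res E) hAdm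
  rw [sift_eq' E κ A X hEX] at h2 h3
  have hVge : c2 / Real.log X ^ (M + 1) ≤ Vol E X := by
    rw [vol_eq]
    exact hV (res E) hAdm X (by omega)
  have hV0 : 0 ≤ Vol E X := le_trans (by positivity) hVge
  have hupR : ((RR E κ A X).card : ℝ) ≤ C1 / c3 * X * Vol E X := by
    have h4 := hup X A hX1 (res E) hAdm (RR E κ A X) (filter_subset _ _) (by
      intro n hn p hp hpX hmem
      have hn' := mem_filter.1 hn
      have hnI := mem_Ioc.1 hn'.1
      have hlt : ∀ e ∈ E, n < e := fun e he => lt_of_le_of_lt hnI.2 (hEX e he)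
      rcases (mem_res E p n hlt).1 hmem with hd | ⟨e, he, hd⟩
      · exact absurd (hn'.2.1 p hp hd) (not_lt.2 hpX)
      · exact absurd (hn'.2.2 e he p hp hd) (not_lt.2 hpX))
    have h5 : c3 * VV (res E) 0 ⌊(X : ℝ) ^ κ⌋₊ ≤ Vol E X :=
      hcomp (res E) hAdm X X hX2 (by rw [Real.rpow_one])
    have h6 : VV (res E) 0 ⌊(X : ℝ) ^ κ⌋₊ ≤ Vol E X / c3 := by
      rw [le_div_iff₀ hc3]
      linarith
    calc ((RR E κ A X).card : ℝ) ≤ C1 * X * VV (res E) 0 ⌊(X : ℝ) ^ κ⌋₊ := h4
      _ ≤ C1 * X * (Vol E X / c3) := by gcongr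
      _ = _ := by ring
  have hAP : ∀ U ⊆ RR E κ A X, ρ * X * Vol E X ≤ U.card → HasNarrowAP m (Real.log X ^ B) U := by
    intro U hU hcU
    apply h3 U hU
    refine le_trans ?_ hcU
    have h7 : 0 < C1 / c3 := by positivity
    calc ρ / (C1 / c3) * ((RR E κ A X).card : ℝ) ≤ ρ / (C1 / c3) * (C1 / c3 * X * Vol E X) := by gcongr
      _ = ρ * X * Vol E X := by field_simp
  refine ⟨?_, ?_, hupR, ?_, hAP, ?_⟩
  · refine le_trans ?_ hVge
    gcongr
    exact min_le_right _ _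
  · refine le_trans ?_ h2
    rw [← vol_eq]
    gcongr
    exact min_le_left _ _
  · intro n hn
    have hn' := mem_filter.1 hn
    have hnI := mem_Ioc.1 hn'.1
    obtain ⟨e0, he0⟩ := hEn
    refine ⟨few' C r X n κ hκ hr (by omega) (by omega) ?_ hn'.2.1, fun e he => ?_⟩
    · have := hE e0 he0
      omega
    · have := hE e he
      exact few' C r X (e - n) κ hκ hr (by omega) (by omega) (by omega) (hn'.2.2 e he)
  · intro hXA hE2 U hU hUp hcU
    apply hAP U _ hcU
    intro p hp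
    have hpI := mem_Ioc.1 (hU hp)
    obtain ⟨hpp, hpe⟩ := hUp p hp
    have hXk : (X : ℝ) ^ κ ≤ X := by
      calc (X : ℝ) ^ κ ≤ (X : ℝ) ^ (1 : ℝ) := Real.rpow_le_rpow_of_exponent_le hXr.le hκ1
        _ = X := Real.rpow_one _
    have hrp : ∀ v : ℕ, v.Prime → X < v → Rough ((X : ℝ) ^ κ) v := by
      intro v hv hXv q hq hqv
      rw [(Nat.prime_dvd_prime_iff_eq hq hv).1 hqv]
      exact lt_of_le_of_lt hXk (by exact_mod_cast hXv)
    refine mem_filter.2 ⟨hU hp, hrp p hpp (by omega), fun e he => hrp _ (hpe e he) ?_⟩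
    have := hE2 e he
    omega

end Pool.Agent.Results.MP_629a14_nt.NarrowRepresentations
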