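import Pool.Agent.Helper269.Uni
import Pool.Agent.Helper269.SIa
import Pool.Agent.Helper269.SI24
import Pool.Agent.W182.PW.Lin

/-!
# Common patterns in the sets of the Goldbach summands of almost all even numbers of short intervals

Let `P(N)` be the set of the primes `p` with `N ^ (1/4) < p < N` for which `N - p` is a prime `> N ^ (1/4)`, and write
`E(N, X) = X ∏ (1 - ν(q) / q)` (product over the primes `q ≤ X`), where `ν(q) = 1` if `q ∣ N` and `ν(q) = 2` otherwise;
`E(N, N)` has the order of magnitude `N ^ 2 / (φ(N) (log N) ^ 2)` of the question. For a suitable constant `δ₀ > 0` call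
the even number `N` good if `P(N)` has at least `δ₀ E(N, N)` elements.
(1) Every interval `(N - H, N]` with `H ≥ N ^ (1 / 3 + ε)` contains at most `H / (log N) ^ U` even numbers which are not
good, for `N ≥ N₀(ε, U)`.
(2) Arbitrary subsets `S_j ⊆ P(N_j)` of the relative density `δ`, for arbitrary good even numbers `N_1, ..., N_M` of the
same order of magnitude (`X / C ≤ N_j ≤ X`), have common difference vectors: for a positive proportion of the vectors
`h ∈ {1, ..., D} ^ m` the set `S_j` contains for every `P ⊆ {0, ..., k - 1} ^ m` with `0 ∈ P` the number of patterns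
`n + f · h`, `f ∈ P`, which is predicted for `N_j`, for all `j` at once, where `D` is arbitrary with
`(log X) ^ B ≤ D ≤ X`. For `m = 1`: for a positive proportion of the integers `d ≤ D` there are, for all `j` at once,
as many progressions `p, p + d, ..., p + (k - 1) d` of primes as predicted, for which
`N_j - p, ..., N_j - p - (k - 1) d` are also primes; `D` may be a power of `log X`, and the `p` may be restricted to
arbitrary subsets of positive relative density, which may depend on `j`.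

The proof combines the lower bound for the number of representations in short intervals
(`Pool.Agent.helper24_UT`, the hand-in `ShortIntervalsAllModuli` of this team; here `Pool.Agent.Helper269.SI24`) with the
theorem of `Pool.Agent.X26.MC` (starting library) on common patterns in sets of integers without small prime factors.
-/

set_option autoImplicit false

namespace Pool.Agent.Results.MP_629a14_nt.PatternsShortIntervals

open Filter

/-- The primes `p < N` for which `N - p` is a prime, both larger than `N ^ (1 / 4)`. -/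
def Primes (N : ℕ) : Set ℕ :=
  {p | p.Prime ∧ p < N ∧ (N - p).Prime ∧ (N : ℝ) ^ (1 / 4 : ℝ) < p ∧ (N : ℝ) ^ (1 / 4 : ℝ) < ((N - p : ℕ) : ℝ)}

/-- The integer `f · h = f 0 * h 0 + f 1 * h 1 + ...`. -/
def dot {m : ℕ} (f h : Fin m → ℕ) : ℕ := ∑ i, f i * h i

/-- The number of the residues `u` modulo `q` such that `w ≡ 0` or `w ≡ N` modulo `q` for some `w = u + f · h`,
`f ∈ P`. -/
noncomputable def omega (N : ℕ) {m : ℕ} (h : Fin m → ℕ) (P : Finset (Fin m → ℕ)) (q : ℕ) : ℕ :=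
  {u : ℕ | 1 ≤ u ∧ u ≤ q ∧ ∃ f ∈ P, q ∣ u + dot f h ∨ u + dot f h ≡ N [MOD q]}.ncard

/-- `X` times the product of the `1 - w q / q` over the primes `q ≤ X`. -/
noncomputable def expected (w : ℕ → ℕ) (X : ℕ) : ℝ :=
  X * ∏ q ∈ (Finset.Icc 1 X).filter Nat.Prime, (1 - (w q : ℝ) / q)

/-- `1` if `q ∣ N`, and `2` otherwise. -/
def nu (N q : ℕ) : ℕ := if q ∣ N then 1 else 2

/-- The set `Primes N` has at least `δ₀` times the expected number of elements. -/
def Good (δ₀ : ℝ) (N : ℕ) : Prop := δ₀ * expected (nu N) N ≤ ((Primes N).ncard : ℝ)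

/-- The number of the `n ∈ S` such that all the `n + f · h`, `f ∈ P`, are in `S`. -/
noncomputable def count (S : Set ℕ) {m : ℕ} (h : Fin m → ℕ) (P : Finset (Fin m → ℕ)) : ℕ :=
  {n : ℕ | n ∈ S ∧ ∀ f ∈ P, n + dot f h ∈ S}.ncard

/-- For all `P ⊆ {0, ..., k - 1} ^ m` with `0 ∈ P`: the integers `f · h`, `f ∈ P`, are different, and for all `j`
the conditions modulo the primes are solvable and the set `S j` contains at least `c` times the expected number of
the patterns `n + f · h`, `f ∈ P`. -/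
def Common {M m : ℕ} (N : Fin M → ℕ) (c : ℝ) (k X : ℕ) (S : Fin M → Set ℕ) (h : Fin m → ℕ) : Prop :=
  ∀ P : Finset (Fin m → ℕ), (∀ f ∈ P, ∀ i, f i < k) → (fun _ => 0) ∈ P →
    Set.InjOn (fun f => dot f h) (P : Set (Fin m → ℕ)) ∧
      ∀ j, (∀ q : ℕ, q.Prime → omega (N j) h P q < q) ∧
        c * expected (omega (N j) h P) X ≤ (count (S j) h P : ℝ)

/-- the polynomials -/
noncomputable def F (N : ℕ) (i : Fin 2) : Polynomial ℤ :=
  if i = 0 then Polynomial.X else Pool.Agent.W182.PW.lin 1 (-(N : ℤ))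

/-- the relation -/
def R (N q n : ℕ) : Prop := q ∣ n ∨ n ≡ N [MOD q]

theorem F_eval (N : ℕ) (x : ℤ) : (F N 0).eval x = x ∧ (F N 1).eval x = x - N := by
  constructor
  · unfold F
    rw [if_pos rfl, Polynomial.eval_X]
  · unfold F
    rw [if_neg (by decide), Pool.Agent.W182.PW.lin_eval]
    push_cast
    ring

theorem prod_eval (N : ℕ) (x : ℤ) : (∏ i, F N i).eval x = x * (x - N) := by
  rw [Polynomial.eval_prod, Fin.prod_univ_two, (F_eval N x).1, (F_eval N x).2]

theorem hR (N : ℕ) : ∀ q n : ℕ, 1 ≤ n → (R N q n ↔ ∃ i, (q : ℤ) ∣ (F N i).eval (n : ℤ)) := by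
  intro q n _
  unfold R
  constructor
  · rintro (h | h)
    · exact ⟨0, by rw [(F_eval N n).1]; exact Int.natCast_dvd_natCast.2 h⟩
    · refine ⟨1, ?_⟩
      rw [(F_eval N n).2]
      exact (Int.natCast_modEq_iff.2 h).symm.dvd
  · rintro ⟨i, hi⟩
    fin_cases i
    · have h2 : (q : ℤ) ∣ (F N 0).eval (n : ℤ) := hi
      rw [(F_eval N n).1] at h2
      exact Or.inl (Int.natCast_dvd_natCast.1 h2)
    · have h2 : (q : ℤ) ∣ (F N 1).eval (n : ℤ) := hi
      rw [(F_eval N n).2] at h2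
      exact Or.inr (Int.natCast_modEq_iff.1 (Int.modEq_iff_dvd.2 h2).symm)

theorem deg (N : ℕ) : (∏ i, F N i).natDegree ≤ 2 := by
  refine (Polynomial.natDegree_prod_le _ _).trans ?_
  rw [Fin.sum_univ_two]
  have h0 : (F N 0).natDegree ≤ 1 := by
    unfold F
    rw [if_pos rfl]
    exact Polynomial.natDegree_X_le
  have h1 : (F N 1).natDegree ≤ 1 := by
    unfold F Pool.Agent.W182.PW.lin
    rw [if_neg (by decide)]
    exact Polynomial.natDegree_linear_le
  omega

theorem nf (N : ℕ) (hN : Even N) : Pool.Agent.X26.GP.NF (∏ i, F N i) := by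
  intro q hq
  rcases eq_or_ne q 2 with h2 | h2
  · refine ⟨1, fun h => ?_⟩
    rw [prod_eval, h2, one_mul] at h
    obtain ⟨a, ha⟩ := hN
    obtain ⟨b, hb⟩ := h
    push_cast at hb
    omega
  · by_cases hd : (q : ℤ) ∣ 1 * (1 - (N : ℤ))
    · refine ⟨2, fun h => ?_⟩
      rw [prod_eval] at h
      have hp := Nat.prime_iff_prime_int.1 hq
      rcases hp.dvd_or_dvd h with h3 | h3
      · have h4 : q ∣ 2 := by exact_mod_cast h3
        exact h2 ((Nat.prime_dvd_prime_iff_eq hq Nat.prime_two).1 h4)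
      · rw [one_mul] at hd
        have h4 : (q : ℤ) ∣ 1 := by
          have h5 := dvd_sub h3 hd
          have h6 : (2 : ℤ) - N - (1 - N) = 1 := by ring
          rwa [h6] at h5
        have h5 : q ∣ 1 := by exact_mod_cast h4
        exact hq.one_lt.ne' (Nat.dvd_one.1 h5)
    · refine ⟨1, fun h => hd ?_⟩
      rwa [prod_eval] at h

theorem nu_eq (N q : ℕ) (hq : q.Prime) : Pool.Agent.Helper269.nuR (R N) q = nu N q := by
  unfold Pool.Agent.Helper269.nuR nu R
  have hq0 := hq.pos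
  by_cases hd : q ∣ N
  · rw [if_pos hd]
    have e : {u : ℕ | 1 ≤ u ∧ u ≤ q ∧ (q ∣ u ∨ u ≡ N [MOD q])} = {q} := by
      ext u
      simp only [Set.mem_ofPred_eq, Set.mem_singleton_iff]
      constructor
      · rintro ⟨h1, h2, h3⟩
        have h4 : q ∣ u := by
          rcases h3 with h3 | h3
          · exact h3
          · exact (Nat.ModEq.dvd_iff h3 dvd_rfl).2 hd
        exact le_antisymm h2 (Nat.le_of_dvd (by omega) h4)
      · intro h
        rw [h]
        exact ⟨hq0, le_rfl, Or.inl dvd_rfl⟩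
    rw [e, Set.ncard_singleton]
  · rw [if_neg hd]
    have hm : N % q ≠ 0 := fun h => hd (Nat.dvd_of_mod_eq_zero h)
    have hml : N % q < q := Nat.mod_lt _ hq0
    have e : {u : ℕ | 1 ≤ u ∧ u ≤ q ∧ (q ∣ u ∨ u ≡ N [MOD q])} = {q, N % q} := by
      ext u
      simp only [Set.mem_ofPred_eq, Set.mem_insert_iff, Set.mem_singleton_iff]
      constructor
      · rintro ⟨h1, h2, h3⟩
        rcases h3 with h3 | h3
        · exact Or.inl (le_antisymm h2 (Nat.le_of_dvd (by omega) h3))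
        · right
          have h4 : u ≠ q := by
            intro h
            rw [h] at h3
            have h5 : q ∣ N := (Nat.ModEq.dvd_iff h3 dvd_rfl).1 dvd_rfl
            exact hd h5
          have h5 : u % q = N % q := h3
          rwa [Nat.mod_eq_of_lt (by omega)] at h5
      · rintro (h | h)
        · rw [h]
          exact ⟨hq0, le_rfl, Or.inl dvd_rfl⟩
        · rw [h]
          exact ⟨by omega, hml.le, Or.inr (Nat.mod_modEq N q)⟩
    rw [e, Set.ncard_pair (by omega)]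

theorem expected_eq (N X : ℕ) :
    expected (nu N) X = X * Pool.Agent.X69.Ric.prR (Pool.Agent.Helper269.nuR (R N)) X := by
  unfold expected Pool.Agent.X69.Ric.prR
  congr 1
  apply Finset.prod_congr rfl
  intro q hq
  rw [nu_eq N q (Finset.mem_filter.1 hq).2]

open Pool.Agent.H560R3.GB (C₂ g) in
theorem good_of {δ₀ K : ℝ} (hK : 0 < K) (hδ : δ₀ = C₂ / (4 * K))
    (hKn : ∀ n : ℕ, 2 ≤ n → n * ∏ q ∈ (Finset.Icc 1 n).filter Nat.Prime, (1 - (Pool.Agent.Helper269.nuG n q : ℝ) / q) ≤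
      K * ((n : ℝ) ^ 2 / (n.totient * Real.log n ^ 2))) {n : ℕ} (hn : 2 ≤ n)
    (hq : 2 * (n : ℝ) ^ (1 / 4 : ℝ) ≤ C₂ / 4 * (n / Real.log n ^ 2))
    (hg : (1 - 1 / 2) * C₂ * ((n : ℝ) ^ 2 / (n.totient * Real.log n ^ 2)) ≤ g n) : Good δ₀ n := by
  have hC := Pool.Agent.Helper269.SI24.C₂_pos
  have hn0 : (0 : ℝ) < n := by exact_mod_cast (by omega : 0 < n)
  have hl : 0 < Real.log n := Real.log_pos (by exact_mod_cast (by omega : 1 < n))
  have hφ : (0 : ℝ) < n.totient := by exact_mod_cast Nat.totient_pos.2 (by omega)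
  have hφn : (n.totient : ℝ) ≤ n := by exact_mod_cast Nat.totient_le n
  have h1 : (g n : ℝ) ≤ ((Primes n).ncard : ℝ) + 2 * (n : ℝ) ^ (1 / 4 : ℝ) := by
    have h2 : g n ≤ (Primes n).ncard + 2 * ⌊(n : ℝ) ^ (1 / 4 : ℝ)⌋₊ := by
      rw [← Pool.Agent.Helper269.SI24.count_one]
      unfold Pool.Agent.Helper269.SI24.count
      obtain ⟨t, ht⟩ : ∃ t : ℕ, t = ⌊(n : ℝ) ^ (1 / 4 : ℝ)⌋₊ := ⟨_, rfl⟩
      rw [← ht]
      have hfin : (Primes n).Finite := (Set.finite_Iic n).subset fun p hp => hp.2.1.le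
      have h3 : (Finset.Icc 1 n).filter (fun m => m % 1 = 0 ∧ m.Prime ∧ m < n ∧ (n - m).Prime) ⊆
          hfin.toFinset ∪ (Finset.Icc 1 t ∪ Finset.Ico (n - t) n) := by
        intro m hm
        rw [Finset.mem_filter, Finset.mem_Icc] at hm
        rw [Finset.mem_union, Finset.mem_union, Set.Finite.mem_toFinset, Finset.mem_Icc, Finset.mem_Ico]
        by_cases h4 : m ≤ t
        · exact Or.inr (Or.inl ⟨hm.1.1, h4⟩)
        · by_cases h5 : n - m ≤ t
          · have := hm.2.2.2.1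
            exact Or.inr (Or.inr ⟨by omega, by omega⟩)
          · left
            refine ⟨hm.2.2.1, hm.2.2.2.1, hm.2.2.2.2, ?_, ?_⟩
            · exact Nat.lt_of_floor_lt (by rw [← ht]; omega)
            · exact Nat.lt_of_floor_lt (by rw [← ht]; omega)
      refine (Finset.card_le_card h3).trans ((Finset.card_union_le _ _).trans ?_)
      have h4 := Finset.card_union_le (Finset.Icc 1 t) (Finset.Ico (n - t) n)
      rw [Nat.card_Icc, Nat.card_Ico] at h4
      rw [Set.ncard_eq_toFinset_card _ hfin]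
      omega
    have h3 : ((⌊(n : ℝ) ^ (1 / 4 : ℝ)⌋₊ : ℕ) : ℝ) ≤ (n : ℝ) ^ (1 / 4 : ℝ) := Nat.floor_le (by positivity)
    calc (g n : ℝ) ≤ (((Primes n).ncard + 2 * ⌊(n : ℝ) ^ (1 / 4 : ℝ)⌋₊ : ℕ) : ℝ) := by exact_mod_cast h2
      _ = ((Primes n).ncard : ℝ) + 2 * ((⌊(n : ℝ) ^ (1 / 4 : ℝ)⌋₊ : ℕ) : ℝ) := by push_cast; ring
      _ ≤ _ := by linarith
  have h2 : (n : ℝ) / Real.log n ^ 2 ≤ (n : ℝ) ^ 2 / (n.totient * Real.log n ^ 2) := by
    rw [div_le_div_iff₀ (by positivity) (by positivity)]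
    have h3 : 0 ≤ (n : ℝ) * Real.log n ^ 2 := by positivity
    nlinarith
  obtain ⟨T, hT⟩ : ∃ T : ℝ, T = (n : ℝ) ^ 2 / (n.totient * Real.log n ^ 2) := ⟨_, rfl⟩
  have h3 := hKn n hn
  rw [← hT] at h2 h3 hg
  unfold Good
  have h4 : expected (nu n) n ≤ K * T := h3
  have h5 : δ₀ * expected (nu n) n ≤ C₂ / 4 * T := by
    rw [hδ]
    calc C₂ / (4 * K) * expected (nu n) n ≤ C₂ / (4 * K) * (K * T) := mul_le_mul_of_nonneg_left h4 (by positivity)
      _ = C₂ / 4 * T := by field_simp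
  have h6 : C₂ / 4 * (n / Real.log n ^ 2) ≤ C₂ / 4 * T := mul_le_mul_of_nonneg_left h2 (by positivity)
  have h7 : (1 - 1 / 2) * C₂ * T = C₂ / 4 * T + C₂ / 4 * T := by ring
  linarith

/-- **Common patterns for almost all even numbers of short intervals.** -/
theorem result : ∃ δ₀ : ℝ, 0 < δ₀ ∧
    (∀ (ε : ℝ) (U : ℕ), 0 < ε → ∃ N₀ : ℕ, ∀ N L H : ℕ, N₀ ≤ N → (N : ℝ) ^ (1 / 3 + ε) ≤ H → L + H = N →
      ({n : ℕ | L < n ∧ n ≤ N ∧ Even n ∧ ¬ Good δ₀ n}.ncard : ℝ) ≤ H / Real.log N ^ U) ∧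
    ∀ (M m k C : ℕ) (δ : ℝ), 1 ≤ C → 0 < δ → ∃ c : ℝ, 0 < c ∧ ∃ B X₀ : ℕ, ∀ X D : ℕ, X₀ ≤ X → Real.log X ^ B ≤ D → D ≤ X →
      ∀ N : Fin M → ℕ, (∀ j, Even (N j) ∧ Good δ₀ (N j) ∧ N j ≤ X ∧ X ≤ C * N j) →
        ∀ S : Fin M → Set ℕ, (∀ j, S j ⊆ Primes (N j)) →
          (∀ j, δ * ((Primes (N j)).ncard : ℝ) ≤ ((S j).ncard : ℝ)) →
          c * (D : ℝ) ^ m ≤ ({h : Fin m → ℕ | (∀ i, 1 ≤ h i ∧ h i ≤ D) ∧ Common N c k X S h}.ncard : ℝ) := by
  classical
  have hC2 := Pool.Agent.Helper269.SI24.C₂_pos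
  obtain ⟨K, hK, hKn⟩ := Pool.Agent.Helper269.prod_upper
  obtain ⟨δ₀, hδ₀⟩ : ∃ δ₀ : ℝ, δ₀ = Pool.Agent.H560R3.GB.C₂ / (4 * K) := ⟨_, rfl⟩
  have hδ₀0 : 0 < δ₀ := by rw [hδ₀]; positivity
  refine ⟨δ₀, hδ₀0, fun ε U hε => ?_, fun M m k C δ hC hδ => ?_⟩
  · obtain ⟨n₁, hn₁⟩ := Pool.Agent.Helper269.quarter (Pool.Agent.H560R3.GB.C₂ / 4) (by positivity)
    obtain ⟨B, N₀, h1⟩ := Pool.Agent.Helper269.SI24.result ε (1 / 2) (U + 1) hε (by norm_num)
    obtain ⟨N₁, h2⟩ := Pool.Agent.Helper269.absorb (n₁ + 2) U ε hε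
    refine ⟨max N₀ N₁, fun N L H hN hH hLH => ?_⟩
    have h3 := h1 N ((le_max_left _ _).trans hN) L H hH hLH
    have h4 := h2 N ((le_max_right _ _).trans hN) H hH
    refine le_trans ?_ h4
    have h5 : {n : ℕ | L < n ∧ n ≤ N ∧ Even n ∧ ¬ Good δ₀ n} ⊆
        (((Finset.Ioc L N).filter (fun n => 2 ∣ n ∧ ¬ Pool.Agent.Helper269.SI24.Holds (1 / 2) (U + 1) B N n) ∪
          Finset.range (n₁ + 2) : Finset ℕ) : Set ℕ) := by
      rintro n ⟨h6, h7, h8, h9⟩
      rw [Finset.mem_coe, Finset.mem_union, Finset.mem_filter, Finset.mem_Ioc, Finset.mem_range]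
      by_contra hcon
      push Not at hcon
      obtain ⟨h10, h11⟩ := hcon
      have h12 := h10 ⟨h6, h7⟩ (even_iff_two_dvd.1 h8)
      exact h9 (good_of hK hδ₀ hKn (by omega) (hn₁ n (by omega)) h12.1.1)
    have h6 := Set.ncard_le_ncard h5 (Finset.finite_toSet _)
    rw [Set.ncard_coe_finset] at h6
    have h7 := h6.trans (Finset.card_union_le _ _)
    rw [Finset.card_range] at h7
    calc ({n : ℕ | L < n ∧ n ≤ N ∧ Even n ∧ ¬ Good δ₀ n}.ncard : ℝ) ≤ _ := Nat.cast_le.2 h7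
      _ ≤ _ := by
        push_cast at h3 ⊢
        linarith
  · have hC0 : (0 : ℝ) < C := by exact_mod_cast hC
    obtain ⟨c, hc, B, X₁, h⟩ := Pool.Agent.Helper269.uni_common (g := 2) M m k 2 (1 / 5) (δ * δ₀ / C) (by norm_num)
      (by norm_num) (by positivity)
    refine ⟨c, hc, B, max X₁ (C ^ 5), fun X D hX hBD hDX N hN S hS hSc => ?_⟩
    have hXC : C ^ 5 ≤ X := (le_max_right _ _).trans hX
    have hX1 : 1 ≤ X := (Nat.one_le_pow _ _ hC).trans hXC
    have hX0 : (0 : ℝ) < X := by exact_mod_cast hX1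
    have hroot : ∀ j, (X : ℝ) ^ (1 / 5 : ℝ) ≤ (N j : ℝ) ^ (1 / 4 : ℝ) := by
      intro j
      have h1 : (C : ℝ) ≤ (X : ℝ) ^ (1 / 5 : ℝ) := by
        have h2 : ((C : ℝ) ^ (5 : ℕ)) ^ (1 / 5 : ℝ) = C := by
          rw [← Real.rpow_natCast, ← Real.rpow_mul hC0.le]
          norm_num
        rw [← h2]
        exact Real.rpow_le_rpow (by positivity) (by exact_mod_cast hXC) (by norm_num)
      have h2 : (X : ℝ) ^ (4 / 5 : ℝ) ≤ N j := by
        have h3 : (X : ℝ) ^ (4 / 5 : ℝ) * (X : ℝ) ^ (1 / 5 : ℝ) = X := by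
          rw [← Real.rpow_add hX0]
          norm_num
        have h4 : (X : ℝ) ≤ C * N j := by exact_mod_cast (hN j).2.2.2
        have h5 : (0 : ℝ) < (X : ℝ) ^ (4 / 5 : ℝ) := Real.rpow_pos_of_pos hX0 _
        have h6 : C * (X : ℝ) ^ (4 / 5 : ℝ) ≤ C * N j := by
          calc C * (X : ℝ) ^ (4 / 5 : ℝ) ≤ (X : ℝ) ^ (1 / 5 : ℝ) * (X : ℝ) ^ (4 / 5 : ℝ) :=
                mul_le_mul_of_nonneg_right h1 h5.le
            _ = X := by rw [mul_comm, h3]
            _ ≤ _ := h4
        exact le_of_mul_le_mul_left h6 hC0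
      calc (X : ℝ) ^ (1 / 5 : ℝ) = ((X : ℝ) ^ (4 / 5 : ℝ)) ^ (1 / 4 : ℝ) := by
            rw [← Real.rpow_mul hX0.le]
            norm_num
        _ ≤ _ := Real.rpow_le_rpow (by positivity) h2 (by norm_num)
    have h3 := h X D ((le_max_left _ _).trans hX) hBD hDX (fun j => F (N j)) (fun j => R (N j))
      (fun j => deg (N j)) (fun j => nf (N j) (hN j).1) (fun j => hR (N j)) (fun _ => 0) S (fun j n hn => by
        obtain ⟨h4, h5, -⟩ := hS j hn
        have h6 := (hN j).2.2.1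
        exact ⟨h4.pos, by omega⟩) (fun j n hn q hq hd => by
        obtain ⟨h4, h5, h6, h7, h8⟩ := hS j hn
        rcases hd with hd | hd
        · rw [(Nat.prime_dvd_prime_iff_eq hq h4).1 hd]
          exact lt_of_le_of_lt (hroot j) h7
        · have h10 : q ∣ N j - n := (Nat.modEq_iff_dvd' h5.le).1 hd
          rw [(Nat.prime_dvd_prime_iff_eq hq h6).1 h10]
          exact lt_of_le_of_lt (hroot j) h8) (fun j => by
        obtain ⟨h4, h5, h6, h7⟩ := hN j
        have h8 : (N j : ℝ) * Pool.Agent.X69.Ric.prR (Pool.Agent.Helper269.nuR (R (N j))) (N j) =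
            expected (nu (N j)) (N j) := (expected_eq _ _).symm
        obtain ⟨g1, g2⟩ := Pool.Agent.Helper269.prR_anti (Pool.Agent.Helper269.nuR (R (N j)))
          (Pool.Agent.Helper269.nuR_le _) h6
        have h9 : (X : ℝ) ≤ C * N j := by exact_mod_cast h7
        calc δ * δ₀ / C * (X * Pool.Agent.X69.Ric.prR (Pool.Agent.Helper269.nuR (R (N j))) X) ≤
              δ * δ₀ / C * ((C * N j) * Pool.Agent.X69.Ric.prR (Pool.Agent.Helper269.nuR (R (N j))) (N j)) := by
              apply mul_le_mul_of_nonneg_left _ (by positivity)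
              exact mul_le_mul h9 g1 g2 (by positivity)
          _ = δ * (δ₀ * ((N j : ℝ) * Pool.Agent.X69.Ric.prR (Pool.Agent.Helper269.nuR (R (N j))) (N j))) := by
              field_simp
          _ = δ * (δ₀ * expected (nu (N j)) (N j)) := by rw [h8]
          _ ≤ δ * ((Primes (N j)).ncard : ℝ) := mul_le_mul_of_nonneg_left h5 hδ.le
          _ ≤ _ := hSc j)
    exact h3

end Pool.Agent.Results.MP_629a14_nt.PatternsShortIntervals
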