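import Pool.Agent.helper306_pp.Fin

/-!
# Binary Goldbach counts for randomly perturbed primes

Every prime `p` is moved to the right by a random amount `U p`, uniform on `{0, 1, …, H j - 1}` where
`2 ^ j ≤ p < 2 ^ (j + 1)` and `2 ^ (θ j) ≤ H j ≤ 2 ^ (θ' j)` for all large `j`, with `1 / 3 < θ` and `θ' < 1`;
the amounts are independent. Almost surely the number of representations of `n` as a sum of two moved
primes is asymptotic to `n / (2 (log n) ^ 2)`, for all `n`.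
-/

set_option autoImplicit false

namespace Pool.Agent.Results.MP_629a14_nt.PerturbedPrimes

open MeasureTheory ProbabilityTheory Filter Topology

/-- the number of pairs of primes `p < q` with `(p + u p) + (q + u q) = n` -/
noncomputable def reps (u : ℕ → ℕ) (n : ℕ) : ℕ :=
  {x : ℕ × ℕ | x.1.Prime ∧ x.2.Prime ∧ x.1 < x.2 ∧ x.1 + u x.1 + (x.2 + u x.2) = n}.ncard

lemma reps_eq (u : ℕ → ℕ) (n : ℕ) : (reps u n : ℝ) = Pool.Agent.helper306_pp.Rep u n := by
  classical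
  unfold reps Pool.Agent.helper306_pp.Rep Pool.Agent.helper306_pp.cnt
  have h1 : {x : ℕ × ℕ | x.1.Prime ∧ x.2.Prime ∧ x.1 < x.2 ∧ x.1 + u x.1 + (x.2 + u x.2) = n} =
      (((Pool.Agent.helper306_pp.Qp n).filter (fun x => Pool.Agent.helper306_pp.Ev n x u) :
        Finset (ℕ × ℕ)) : Set (ℕ × ℕ)) := by
    ext x
    rw [Finset.mem_coe, Finset.mem_filter]
    unfold Pool.Agent.helper306_pp.Qp Pool.Agent.helper306_pp.Ev
    rw [Finset.mem_filter, Finset.mem_product, Finset.mem_range, Finset.mem_range,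
      Set.mem_ofPred_eq]
    constructor
    · rintro ⟨h1, h2, h3, h4⟩
      exact ⟨⟨⟨by omega, by omega⟩, h1, h2, h3⟩, h4⟩
    · rintro ⟨⟨_, h1, h2, h3⟩, h4⟩
      exact ⟨h1, h2, h3, h4⟩
  rw [h1, Set.ncard_coe_finset, Finset.sum_boole]

theorem result (θ θ' : ℝ) (hθ : 1 / 3 < θ) (hθ' : θ' < 1) (H : ℕ → ℕ)
    (h1 : ∀ j, 1 ≤ H j ∧ H j ≤ 2 ^ j)
    (h2 : ∀ᶠ j : ℕ in atTop, (2 : ℝ) ^ (θ * j) ≤ H j ∧ (H j : ℝ) ≤ 2 ^ (θ' * j))
    {Ω : Type*} [MeasurableSpace Ω] (P : Measure Ω) [IsProbabilityMeasure P]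
    (U : ℕ → Ω → ℕ) (hU : ∀ p, Measurable (U p)) (hind : iIndepFun U P)
    (hunif : ∀ p : ℕ, p.Prime → ∀ i < H (Nat.log 2 p),
      P {ω | U p ω = i} = (H (Nat.log 2 p) : ENNReal)⁻¹) :
    ∀ᵐ ω ∂P, Tendsto (fun n : ℕ => (reps (fun p => U p ω) n : ℝ) * Real.log n ^ 2 / n) atTop
      (𝓝 (1 / 2)) := by
  have h := Pool.Agent.helper306_pp.main H (fun j => (h1 j).1) (fun j => (h1 j).2) θ θ' hθ hθ'
    (h2.mono fun j hj => hj.1) (h2.mono fun j hj => hj.2) P U hU hind hunif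
  filter_upwards [h] with ω hω
  refine hω.congr fun n => ?_
  rw [reps_eq]

end Pool.Agent.Results.MP_629a14_nt.PerturbedPrimes
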