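import Pool.Agent.helper24_UT.Ch8
import Pool.Agent.helper24_UT.Gss
import Pool.Agent.helper24_UT.Gsu
import Pool.Agent.TH894.SM0

set_option autoImplicit false

/-!
# Goldbach representations of almost all even numbers in intervals of length `N ^ (1 / 3 + ε)`: order of magnitude, and
# equidistribution in all residue classes to all moduli up to `N exp (- B (log log N) ^ 2)`

Let `ε, δ > 0` and `A` be fixed, let `N` be large, `M + H = N` and `H ≥ N ^ (1 / 3 + ε)`. All but at most `H / (log N) ^ A` of the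
even numbers `n` of the short interval `(M, M + H]` have the following two properties.
(1) The number `r₂(n)` of representations of `n` as a sum of two primes lies between `(1 - δ) C₂` and `1 + δ` times
`n ^ 2 / (φ(n) log ^ 2 n)`.
(2) The prime `m` of the representations `n = m + (n - m)` is equidistributed in the residue classes `r` modulo `q` with
`r (n - r)` coprime to `q` in mean square over ALL moduli `q ≤ Q = N exp (- B (log log N) ^ 2)`, with any saving of a power of
the logarithm: the number of these representations with `m ≤ y`, `m ≡ r (mod q)` is `(𝔖(n) / φ_n(q)) ∑_{m ≤ y} 1 / (log m log (n - m))`,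
`φ_n(q)` the number of these classes, up to an error whose squares, summed over all these classes and over all `q ≤ Q`, have the
sum at most `N ^ 2 / (log N) ^ A`; the length `y = y(q, r)` may be chosen in every class as unfavourably as possible. (The case
`q = 1` is `r₂(n) = 𝔖(n) ∑_{2 ≤ m ≤ n - 2} 1 / (log m log (n - m)) + O(N / (log N) ^ (A / 2))`.)

Proof. The differences `D` of the primes and their sieve model satisfy
`∑_{x ≤ X} |∑_{x < m ≤ x + K} D(m) e(m α)| ^ 2 ≤ X K ^ 2 / (log X) ^ A` uniformly in `α`, for `K ≥ X ^ (1 / 3 + ε)`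
(`Pool.Agent.helper24_UT.Ch.t_MK`; identity of Heath-Brown, Type II sums and divisor sums on the minor arcs, mean values of
Dirichlet polynomials, van der Corput's estimate and a bound of the type of Vinogradov and Korobov on the major arcs; the
method of Mikawa). The square over all classes is expanded and the sum over `n` in the short interval is a correlation of
`D` over short ranges.

Definitions used from `Pool.Agent.H560R3.GB` (starting files): `C₂`: the twin prime constant
`∏_{p > 2} (1 - 1 / (p - 1) ^ 2)`; `sing n`: the singular series `2 C₂ ∏_{p ∣ n, p > 2} (p - 1) / (p - 2)`; `g n`: the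
number of ordered representations of `n` as a sum of two primes (`r₂(n; ℙ)` in the problem).
-/

namespace Pool.Agent.Results.MP_629a14_nt.ShortIntervalsAllModuli

open Finset
open Pool.Agent.H560R3.GB (C₂ sing g)

/-- the number of the primes `m ≤ y` with `m ≡ r (mod q)` for which `n - m` is a prime (for `r < q`) -/
def count (n q r y : ℕ) : ℕ := ((Icc 1 y).filter (fun m => m % q = r ∧ m.Prime ∧ m < n ∧ (n - m).Prime)).card

/-- `∑_{2 ≤ m ≤ y, m ≤ n - 2} 1 / (log m log (n - m))` -/
noncomputable def logSum (n y : ℕ) : ℝ := ∑ m ∈ Icc 2 (min y (n - 2)), 1 / (Real.log m * Real.log ((n - m : ℕ) : ℝ))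

/-- the residues `r` modulo `q` for which `r` and `n - r` are coprime to `q` -/
def residues (n q : ℕ) : Finset ℕ := (range q).filter (fun r : ℕ => r.Coprime q ∧ Int.gcd ((n : ℤ) - r) q = 1)

/-- (1) the number of representations of `n` as a sum of two primes is at least `(1 - δ) C₂` times and at most `1 + δ` times
`n ^ 2 / (φ(n) log ^ 2 n)`; (2) for all `Q ≤ N exp (- B (log log N) ^ 2)` and all choices of the lengths `y q r ≤ N` the sum, over
all `q ≤ Q` and all residues `r` of `residues n q`, of the squares of `count - (𝔖(n) / φ_n(q)) logSum` is at most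
`N ^ 2 / (log N) ^ A`. -/
def Holds (δ : ℝ) (A B N n : ℕ) : Prop :=
  ((1 - δ) * C₂ * ((n : ℝ) ^ 2 / (n.totient * Real.log n ^ 2)) ≤ g n ∧
    (g n : ℝ) ≤ (1 + δ) * ((n : ℝ) ^ 2 / (n.totient * Real.log n ^ 2))) ∧
  ∀ Q : ℕ, (Q : ℝ) ≤ N * Real.exp (-(B * Real.log (Real.log N) ^ 2)) → ∀ y : ℕ → ℕ → ℕ, (∀ q r, y q r ≤ N) →
    ∑ q ∈ Icc 1 Q, ∑ r ∈ residues n q,
      ((count n q r (y q r) : ℝ) - sing n / (residues n q).card * logSum n (y q r)) ^ 2 ≤ (N : ℝ) ^ 2 / (Real.log N) ^ A

theorem phi_eq (n q : ℕ) :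
    Pool.Agent.helper24_UT.phf Pool.Agent.helper24_UT.sG (Pool.Agent.helper24_UT.hG n) q = (residues n q).card := by
  classical
  unfold Pool.Agent.helper24_UT.phf residues
  congr 1
  apply filter_congr
  intro t _
  rw [Fin.forall_fin_two]
  have e0 : Pool.Agent.helper24_UT.sG 0 * (t : ℤ) + Pool.Agent.helper24_UT.hG n 0 = (t : ℤ) := by
    simp [Pool.Agent.helper24_UT.sG, Pool.Agent.helper24_UT.hG]
  have e1 : Pool.Agent.helper24_UT.sG 1 * (t : ℤ) + Pool.Agent.helper24_UT.hG n 1 = (n : ℤ) - t := by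
    simp [Pool.Agent.helper24_UT.sG, Pool.Agent.helper24_UT.hG]
    ring
  rw [e0, e1, Int.gcd_natCast_natCast]

/-- `count n 1 0 n` is the number of ordered representations -/
theorem count_one (n : ℕ) : count n 1 0 n = g n := by
  unfold count g
  apply card_bij' (fun m _ => (m, n - m)) (fun q _ => q.1)
  · intro m hm
    rw [mem_filter, mem_Icc] at hm
    rw [mem_filter, HasAntidiagonal.mem_antidiagonal]
    exact ⟨by simp only; omega, hm.2.2.1, hm.2.2.2.2⟩
  · intro q hq
    rw [mem_filter, HasAntidiagonal.mem_antidiagonal] at hq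
    have h1 := hq.2.1.pos
    have h2 := hq.2.2.pos
    rw [mem_filter, mem_Icc]
    refine ⟨⟨h1, by omega⟩, Nat.mod_one _, hq.2.1, by omega, ?_⟩
    have e : n - q.1 = q.2 := by omega
    rw [e]
    exact hq.2.2
  · intro m _
    rfl
  · intro q hq
    rw [mem_filter, HasAntidiagonal.mem_antidiagonal] at hq
    ext
    · rfl
    · simp only
      omega

lemma C₂_pos : 0 < C₂ := by
  obtain ⟨c, hc, hS⟩ := Pool.Agent.helper24_UT.Slb.main 2
  have h1 := (hS Pool.Agent.helper24_UT.sG (Pool.Agent.helper24_UT.hG 2) (by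
    intro i
    fin_cases i
    · exact Or.inl rfl
    · exact Or.inr rfl) (by
    intro i j hij
    fin_cases i <;> fin_cases j
    · exact absurd rfl hij
    · simp [Pool.Agent.helper24_UT.sG, Pool.Agent.helper24_UT.hG]
    · simp [Pool.Agent.helper24_UT.sG, Pool.Agent.helper24_UT.hG]
    · exact absurd rfl hij)).2
  have h2 : c ≤ Pool.Agent.helper24_UT.sers Pool.Agent.helper24_UT.sG (Pool.Agent.helper24_UT.hG 2) := by
    apply h1
    intro p hp
    by_cases hd : p ∣ 2
    · rw [Pool.Agent.helper24_UT.Gss.nuf_dvd hp hd]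
      exact hp.one_lt
    · rw [Pool.Agent.helper24_UT.Gss.nuf_ndvd hp hd]
      have h3 : p ≠ 2 := fun h => hd (h ▸ dvd_rfl)
      have := hp.two_le
      omega
  rw [Pool.Agent.helper24_UT.Gss.main 2 le_rfl dvd_rfl] at h2
  have h4 := (Pool.Agent.TH894.SM.sing_tot 2 (by norm_num) dvd_rfl)
  have h5 : sing 2 = 2 * C₂ := by
    unfold sing
    have : (2 : ℕ).primeFactors.filter (fun p => 2 < p) = ∅ := by
      rw [Nat.Prime.primeFactors Nat.prime_two]
      rfl
    rw [this, prod_empty, mul_one]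
  linarith

/-- three properties of large numbers -/
lemma large (A B n₀ : ℕ) (L : ℝ) : ∃ N₁ : ℕ, ∀ N : ℕ, N₁ ≤ N → L ≤ Real.log N ∧ (n₀ : ℝ) * (Real.log N) ^ A ≤ N ∧
    1 ≤ N * Real.exp (-(B * Real.log (Real.log N) ^ 2)) := by
  have hlog : Filter.Tendsto (fun N : ℕ => Real.log (N : ℝ)) Filter.atTop Filter.atTop :=
    Real.tendsto_log_atTop.comp tendsto_natCast_atTop_atTop
  have h1 : ∀ᶠ N : ℕ in Filter.atTop, max L 1 ≤ Real.log N := hlog.eventually_ge_atTop _
  have h2 : ∀ᶠ x : ℝ in Filter.atTop, ‖Real.log x ^ A‖ ≤ 1 / (n₀ + 1 : ℝ) * ‖x‖ :=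
    (Real.isLittleO_pow_log_id_atTop (n := A)).bound (by positivity)
  have h3 : ∀ᶠ x : ℝ in Filter.atTop, ‖Real.log x ^ 2‖ ≤ 1 / (B + 1 : ℝ) * ‖x‖ :=
    (Real.isLittleO_pow_log_id_atTop (n := 2)).bound (by positivity)
  have h2' := (tendsto_natCast_atTop_atTop (R := ℝ)).eventually h2
  have h3' := hlog.eventually h3
  obtain ⟨N₁, hN₁⟩ := Filter.eventually_atTop.1 (h1.and (h2'.and h3'))
  refine ⟨max N₁ 1, fun N hN => ?_⟩
  obtain ⟨g1, g2, g3⟩ := hN₁ N ((le_max_left _ _).trans hN)
  have hNpos : (0 : ℝ) < N := by exact_mod_cast (le_max_right _ _).trans hN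
  refine ⟨(le_max_left _ _).trans g1, ?_, ?_⟩
  · rw [Real.norm_eq_abs, Real.norm_eq_abs, abs_of_pos hNpos] at g2
    have g4 := (le_abs_self _).trans g2
    have hn : (0 : ℝ) ≤ n₀ := Nat.cast_nonneg _
    rw [div_mul_eq_mul_div, one_mul, le_div_iff₀ (by positivity)] at g4
    have hl : 0 ≤ Real.log N ^ A := pow_nonneg (by have := (le_max_right L 1).trans g1; linarith) _
    nlinarith
  · have hl1 : 1 ≤ Real.log N := (le_max_right _ _).trans g1
    rw [Real.norm_eq_abs, Real.norm_eq_abs, abs_of_pos (by linarith : (0 : ℝ) < Real.log N)] at g3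
    have g4 := (le_abs_self _).trans g3
    have hB : (0 : ℝ) ≤ B := Nat.cast_nonneg _
    rw [div_mul_eq_mul_div, one_mul, le_div_iff₀ (by positivity)] at g4
    have g5 : B * Real.log (Real.log N) ^ 2 ≤ Real.log N := by nlinarith [sq_nonneg (Real.log (Real.log N))]
    calc (1 : ℝ) = N * Real.exp (-Real.log N) := by rw [Real.exp_neg, Real.exp_log hNpos, mul_inv_cancel₀ hNpos.ne']
      _ ≤ _ := by
        apply mul_le_mul_of_nonneg_left _ hNpos.le
        apply Real.exp_le_exp.2
        linarith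

/-- the order of magnitude -/
lemma order {n : ℕ} (hn : 2 ≤ n) (h2 : 2 ∣ n) {δ η G E R : ℝ} (hη : 0 < η) (hη1 : η ≤ 1 / 4) (hδ : 2 * η ≤ δ)
    (hE : |E - n / Real.log n ^ 2| ≤ η * (n / Real.log n ^ 2)) (hG : |G - sing n * E| ≤ R)
    (hR : R ≤ η * (C₂ * (n / Real.log n ^ 2))) :
    (1 - δ) * C₂ * ((n : ℝ) ^ 2 / (n.totient * Real.log n ^ 2)) ≤ G ∧
    G ≤ (1 + δ) * ((n : ℝ) ^ 2 / (n.totient * Real.log n ^ 2)) := by
  have hC := C₂_pos
  have hn0 : (0 : ℝ) < n := by exact_mod_cast (by omega : 0 < n)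
  have hl : 0 < Real.log n := Real.log_pos (by exact_mod_cast (by omega : 1 < n))
  have hφ : (0 : ℝ) < n.totient := by exact_mod_cast Nat.totient_pos.2 (by omega)
  have hφn : (n.totient : ℝ) ≤ n := by exact_mod_cast Nat.totient_le n
  obtain ⟨s1, s2⟩ := Pool.Agent.TH894.SM.sing_tot n (by omega) h2
  have hT : (n : ℝ) ^ 2 / (n.totient * Real.log n ^ 2) = (n / n.totient) * (n / Real.log n ^ 2) := by
    field_simp
  rw [hT]
  set T := (n : ℝ) / Real.log n ^ 2 with hTdef
  set F := (n : ℝ) / n.totient with hFdef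
  have hT0 : 0 < T := by positivity
  have hF1 : 1 ≤ F := by rw [hFdef, one_le_div hφ]; exact hφn
  have hs0 : 0 < sing n := lt_of_lt_of_le (by positivity) s1
  have hCs : C₂ ≤ sing n := by nlinarith
  have h1 : |sing n * E - sing n * T| ≤ sing n * (η * T) := by
    rw [← mul_sub, abs_mul, abs_of_pos hs0]
    exact mul_le_mul_of_nonneg_left hE hs0.le
  have h3 : R ≤ η * (sing n * T) := hR.trans (by
    apply mul_le_mul_of_nonneg_left _ hη.le
    exact mul_le_mul_of_nonneg_right hCs hT0.le)
  rw [abs_le] at h1 hG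
  have h4 : (1 - 2 * η) * (sing n * T) ≤ G := by nlinarith
  have h5 : G ≤ (1 + 2 * η) * (sing n * T) := by nlinarith
  have h6 : C₂ * F * T ≤ sing n * T := mul_le_mul_of_nonneg_right s1 hT0.le
  have h7 : sing n * T ≤ F * T := mul_le_mul_of_nonneg_right s2 hT0.le
  have h8 : 0 < C₂ * F * T := by positivity
  have h9 : 0 < F * T := by positivity
  constructor
  · calc (1 - δ) * C₂ * (F * T) = (1 - δ) * (C₂ * F * T) := by ring
      _ ≤ (1 - 2 * η) * (C₂ * F * T) := by
        apply mul_le_mul_of_nonneg_right _ h8.le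
        linarith
      _ ≤ (1 - 2 * η) * (sing n * T) := by
        apply mul_le_mul_of_nonneg_left h6
        linarith
      _ ≤ G := h4
  · calc G ≤ (1 + 2 * η) * (sing n * T) := h5
      _ ≤ (1 + 2 * η) * (F * T) := by
        apply mul_le_mul_of_nonneg_left h7
        linarith
      _ ≤ (1 + δ) * (F * T) := by
        apply mul_le_mul_of_nonneg_right _ h9.le
        linarith

open Classical in
/-- **Goldbach representations of almost all even numbers in short intervals: order of magnitude and classes to all moduli.** -/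
theorem result (ε δ : ℝ) (A : ℕ) (hε : 0 < ε) (hδ : 0 < δ) : ∃ B N₀ : ℕ, ∀ N : ℕ, N₀ ≤ N → ∀ M H : ℕ,
    (N : ℝ) ^ (1 / 3 + ε) ≤ H → M + H = N →
    (((Ioc M N).filter (fun n => 2 ∣ n ∧ ¬ Holds δ A B N n)).card : ℝ) ≤ (H : ℝ) / (Real.log N) ^ A := by
  obtain ⟨e, he⟩ := exists_nat_gt (1 / ε)
  have he1 : 1 ≤ e := by
    have h1 : 0 < 1 / ε := by positivity
    have h2 : (0 : ℝ) < e := h1.trans he
    exact_mod_cast h2
  have he0 : (0 : ℝ) < e := by exact_mod_cast he1
  have hle : 1 / (e : ℝ) ≤ ε := by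
    rw [div_le_iff₀ he0]
    rw [div_lt_iff₀ hε] at he
    linarith
  have hC := C₂_pos
  obtain ⟨η, hη0, hη1, hη2⟩ : ∃ η : ℝ, 0 < η ∧ η ≤ 1 / 4 ∧ 2 * η ≤ δ := by
    refine ⟨min (1 / 4) (δ / 2), lt_min (by norm_num) (by linarith), min_le_left _ _, ?_⟩
    have := min_le_right (1 / 4) (δ / 2)
    linarith
  obtain ⟨n₀, hn₀⟩ := Pool.Agent.helper24_UT.Gsu.main η hη0
  obtain ⟨B, N₀, h⟩ := Pool.Agent.helper24_UT.Ch.t_R7 e (2 * (A + 5)) he1
  obtain ⟨N₁, hN₁⟩ := large (A + 2) B (n₀ + 2) (max 2 (1 / (η * C₂)))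
  refine ⟨B, max (max N₀ N₁) 1, fun N hN M H hH hMH => ?_⟩
  have hN1 : (1 : ℝ) ≤ N := by exact_mod_cast (le_max_right _ _).trans hN
  obtain ⟨hL, hT, hQ1⟩ := hN₁ N (((le_max_right _ _).trans (le_max_left _ _)).trans hN)
  have hpow : (N : ℝ) ^ (1 / 3 + 1 / e : ℝ) ≤ H := by
    refine le_trans ?_ hH
    apply Real.rpow_le_rpow_of_exponent_le hN1
    linarith
  have h0 := h N (((le_max_left _ _).trans (le_max_left _ _)).trans hN) M H hpow hMH
  set L := Real.log N with hLdef
  have hL2 : 2 ≤ L := (le_max_left _ _).trans hL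
  have hLC : 1 / (η * C₂) ≤ L := (le_max_right _ _).trans hL
  have hLp : 0 < L := by linarith
  have hH0 : (0 : ℝ) ≤ H := Nat.cast_nonneg _
  set T := (N : ℝ) / L ^ (A + 2) with hTdef
  have hTn : ((n₀ + 2 : ℕ) : ℝ) ≤ T := by
    rw [hTdef, le_div_iff₀ (by positivity)]
    exact hT
  have hsub : (Ioc M N).filter (fun n => 2 ∣ n ∧ ¬ Holds δ A B N n) ⊆
      ((Ioc M N).filter (fun n => ¬ Pool.Agent.helper24_UT.Good7 (2 * (A + 5)) B N n)) ∪
      ((Ioc M N).filter (fun n => (n : ℝ) ≤ T)) := by
    intro n hn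
    rw [mem_filter] at hn
    rw [mem_union, mem_filter, mem_filter]
    by_contra hcon
    rw [not_or] at hcon
    have hg : Pool.Agent.helper24_UT.Good7 (2 * (A + 5)) B N n := by
      by_contra hg
      exact hcon.1 ⟨hn.1, hg⟩
    have hnT : T < n := by
      by_contra hnT
      exact hcon.2 ⟨hn.1, not_lt.1 hnT⟩
    have hn1 := mem_Ioc.1 hn.1
    have hnn₀ : n₀ + 2 ≤ n := by
      have : ((n₀ + 2 : ℕ) : ℝ) < n := lt_of_le_of_lt hTn hnT
      have := Nat.cast_lt.1 this
      omega
    have h2n : 2 ≤ n := by omega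
    have hsing := Pool.Agent.helper24_UT.Gss.main n h2n hn.2.1
    have hcommon : ∀ Q : ℕ, (Q : ℝ) ≤ N * Real.exp (-(B * Real.log L ^ 2)) → ∀ y : ℕ → ℕ → ℕ, (∀ q r, y q r ≤ N) →
        ∑ q ∈ Icc 1 Q, ∑ r ∈ residues n q,
          ((count n q r (y q r) : ℝ) - sing n / (residues n q).card * logSum n (y q r)) ^ 2 ≤
            (N : ℝ) ^ 2 / L ^ (2 * (A + 5)) := by
      intro Q hQ y hy
      have h3 := hg Q hQ y hy
      rw [hsing] at h3
      simp only [phi_eq] at h3
      exact h3
    apply hn.2.2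
    refine ⟨?_, fun Q hQ y hy => (hcommon Q hQ y hy).trans ?_⟩
    · have h3 := hcommon 1 (by rw [Nat.cast_one]; exact hQ1) (fun _ _ => n) (fun _ _ => hn1.2)
      have hres : residues n 1 = {0} := by
        ext r
        unfold residues
        rw [mem_filter, mem_range, mem_singleton]
        constructor
        · rintro ⟨h4, _⟩
          omega
        · rintro rfl
          refine ⟨by omega, Nat.coprime_one_right 0, ?_⟩
          rw [Nat.cast_one, Int.gcd_one]
      rw [Icc_self, sum_singleton, hres, sum_singleton, card_singleton, Nat.cast_one, div_one, count_one] at h3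
      have h4 : |(g n : ℝ) - sing n * logSum n n| ≤ N / L ^ (A + 5) := by
        apply abs_le_of_sq_le_sq _ (by positivity)
        rw [div_pow, ← pow_mul, mul_comm (A + 5) 2]
        exact h3
      refine order h2n hn.2.1 hη0 hη1 hη2 (hn₀ n (by omega)) h4 ?_
      have hn0 : (0 : ℝ) < n := by exact_mod_cast (by omega : 0 < n)
      have hlogn : Real.log n ≤ L := by
        rw [hLdef]
        apply Real.log_le_log hn0
        exact_mod_cast hn1.2
      have hlogn0 : 0 < Real.log n := Real.log_pos (by exact_mod_cast (by omega : 1 < n))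
      have h5 : (N : ℝ) < n * L ^ (A + 2) := by
        rw [hTdef, div_lt_iff₀ (by positivity)] at hnT
        exact hnT
      calc (N : ℝ) / L ^ (A + 5) ≤ n * L ^ (A + 2) / L ^ (A + 5) := by
            apply div_le_div_of_nonneg_right h5.le (by positivity)
        _ = n / L ^ 2 * (1 / L) := by
            rw [show A + 5 = (A + 2) + 3 by ring, pow_add L (A + 2) 3]
            field_simp
        _ ≤ n / L ^ 2 * (η * C₂) := by
            apply mul_le_mul_of_nonneg_left _ (by positivity)
            rw [div_le_iff₀ hLp]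
            rw [div_le_iff₀ (by positivity)] at hLC
            linarith
        _ ≤ n / Real.log n ^ 2 * (η * C₂) := by
            apply mul_le_mul_of_nonneg_right _ (by positivity)
            apply div_le_div_of_nonneg_left hn0.le (by positivity)
            exact pow_le_pow_left₀ hlogn0.le hlogn 2
        _ = η * (C₂ * (n / Real.log n ^ 2)) := by ring
    · apply div_le_div_of_nonneg_left (by positivity) (by positivity)
      exact pow_le_pow_right₀ (by linarith) (by omega)
  have hcard2 : (((Ioc M N).filter (fun n : ℕ => (n : ℝ) ≤ T)).card : ℝ) ≤ (1 / 2) * (H / L ^ A) := by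
    by_cases hMT : T ≤ M
    · have : (Ioc M N).filter (fun n : ℕ => (n : ℝ) ≤ T) = ∅ := by
        apply filter_eq_empty_iff.2
        intro n hn
        rw [mem_Ioc] at hn
        rw [not_le]
        have : (M : ℝ) < n := by exact_mod_cast hn.1
        linarith
      rw [this, card_empty, Nat.cast_zero]
      positivity
    · rw [not_le] at hMT
      have hT0 : 0 ≤ T := by positivity
      have h4 : (((Ioc M N).filter (fun n : ℕ => (n : ℝ) ≤ T)).card : ℝ) ≤ T := by
        have h5 : (Ioc M N).filter (fun n : ℕ => (n : ℝ) ≤ T) ⊆ Icc 1 ⌊T⌋₊ := by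
          intro n hn
          rw [mem_filter, mem_Ioc] at hn
          rw [mem_Icc]
          exact ⟨by omega, Nat.le_floor hn.2⟩
        have h6 := card_le_card h5
        rw [Nat.card_Icc, Nat.add_sub_cancel] at h6
        exact (Nat.cast_le.2 h6).trans (Nat.floor_le hT0)
      have hTN : T ≤ N / 4 := by
        rw [hTdef]
        apply div_le_div_of_nonneg_left (by linarith) (by norm_num)
        calc (4 : ℝ) = 2 ^ 2 := by norm_num
          _ ≤ L ^ 2 := pow_le_pow_left₀ (by norm_num) hL2 2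
          _ ≤ L ^ (A + 2) := pow_le_pow_right₀ (by linarith) (by omega)
      have hMHr : (M : ℝ) + H = N := by exact_mod_cast hMH
      have hN2 : (N : ℝ) ≤ 2 * H := by linarith
      refine h4.trans ?_
      rw [hTdef, pow_add]
      have hL4 : 4 ≤ L ^ 2 := by nlinarith
      calc (N : ℝ) / (L ^ A * L ^ 2) ≤ 2 * H / (L ^ A * 4) := by
            apply div_le_div₀ (by positivity) hN2 (by positivity)
            exact mul_le_mul_of_nonneg_left hL4 (by positivity)
        _ = _ := by ring
  have hcard1 : (((Ioc M N).filter (fun n => ¬ Pool.Agent.helper24_UT.Good7 (2 * (A + 5)) B N n)).card : ℝ) ≤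
      (1 / 2) * (H / L ^ A) := by
    refine h0.trans ?_
    calc (H : ℝ) / L ^ (2 * (A + 5)) ≤ H / (2 * L ^ A) := by
          apply div_le_div_of_nonneg_left hH0 (by positivity)
          calc 2 * L ^ A ≤ L * L ^ A := mul_le_mul_of_nonneg_right hL2 (by positivity)
            _ = L ^ (A + 1) := by ring
            _ ≤ L ^ (2 * (A + 5)) := pow_le_pow_right₀ (by linarith) (by omega)
      _ = _ := by
        field_simp
  calc (((Ioc M N).filter (fun n => 2 ∣ n ∧ ¬ Holds δ A B N n)).card : ℝ) ≤
      (((Ioc M N).filter (fun n => ¬ Pool.Agent.helper24_UT.Good7 (2 * (A + 5)) B N n)).card : ℝ) +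
      ((Ioc M N).filter (fun n : ℕ => (n : ℝ) ≤ T)).card := by
        have := (card_le_card hsub).trans (card_union_le _ _)
        exact_mod_cast this
    _ ≤ (1 / 2) * (H / L ^ A) + (1 / 2) * (H / L ^ A) := add_le_add hcard1 hcard2
    _ = _ := by ring

end Pool.Agent.Results.MP_629a14_nt.ShortIntervalsAllModuli
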